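import Mathlib

/-!
# Optimal trajectories faster than the square root of the side length

Cities `(0,6), (16,0), (0,7), (0,12), (16,16), (0,13)` in the plane, so `L = 16`. Every optimal
trajectory has length `32`, its first coordinate is forced (it accelerates and decelerates maximally on
each of the four legs), and the third and the fourth city must be visited while the first coordinate
rests at `0`; hence the speed in the second coordinate is at least `12 - 7 = 5 > 4` at that step.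
-/

set_option autoImplicit false

namespace Pool.Agent.Results.MP_98930f_lc.FastOptimal

/-- A configuration: position and velocity. -/
abbrev Config (d : ℕ) : Type := (Fin d → ℤ) × (Fin d → ℤ)

/-- `c 0, …, c ℓ` is a trajectory: `v_{i+1} = p_{i+1} - p_i` and every coordinate of
`v_{i+1} - v_i` is in `{-1, 0, 1}`, for all `i < ℓ`. -/
def IsTrajectory {d : ℕ} (ℓ : ℕ) (c : ℕ → Config d) : Prop :=
  ∀ i < ℓ, (c (i + 1)).2 = (c (i + 1)).1 - (c i).1 ∧
    ∀ k, (c (i + 1)).2 k - (c i).2 k ∈ ({-1, 0, 1} : Set ℤ)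

/-- The point of `ℝ ^ d` with the given integer coordinates. -/
def toReal {d : ℕ} (x : Fin d → ℤ) : Fin d → ℝ := fun k => (x k : ℝ)

/-- The configuration `(p, v)` visits `x`: the point `x` lies on the closed segment joining `p - v`
and `p`. -/
def Visits {d : ℕ} (c : Config d) (x : Fin d → ℤ) : Prop :=
  toReal x ∈ segment ℝ (toReal (c.1 - c.2)) (toReal c.1)

/-- The trajectory `c 0, …, c ℓ` is feasible for the cities `x 0, …, x n`. -/
def IsFeasible {d n : ℕ} (x : Fin (n + 1) → Fin d → ℤ) (ℓ : ℕ) (c : ℕ → Config d) : Prop :=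
  IsTrajectory ℓ c ∧ c 0 = (x 0, 0) ∧ c ℓ = (x (Fin.last n), 0) ∧
    ∃ idx : Fin (n + 1) → ℕ, Monotone idx ∧ ∀ j, idx j ≤ ℓ ∧ Visits (c (idx j)) (x j)

/-- The feasible trajectory has minimum length. -/
def IsOptimal {d n : ℕ} (x : Fin (n + 1) → Fin d → ℤ) (ℓ : ℕ) (c : ℕ → Config d) : Prop :=
  IsFeasible x ℓ c ∧ ∀ (ℓ' : ℕ) (c' : ℕ → Config d), IsFeasible x ℓ' c' → ℓ ≤ ℓ'

/-- The maximum of the differences `|x_j^(k) - x_j'^(k)|`. -/
def sideLength {d n : ℕ} (x : Fin (n + 1) → Fin d → ℤ) : ℕ :=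
  Finset.univ.sup fun q : Fin (n + 1) × Fin (n + 1) × Fin d => (x q.1 q.2.2 - x q.2.1 q.2.2).natAbs

/-- the six cities -/
def cities : Fin 6 → Fin 2 → ℤ := ![![0, 6], ![16, 0], ![0, 7], ![0, 12], ![16, 16], ![0, 13]]

/-- positions of the first coordinate -/
def xs : List ℤ := [0, 1, 3, 6, 10, 13, 15, 16, 16, 15, 13, 10, 6, 3, 1, 0, 0,
  1, 3, 6, 10, 13, 15, 16, 16, 15, 13, 10, 6, 3, 1, 0, 0]

/-- positions of the second coordinate -/
def ys : List ℤ := [6, 6, 6, 6, 6, 6, 5, 3, 0, -2, -3, -3, -2, 0, 3, 7, 12,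
  16, 19, 21, 22, 22, 21, 19, 16, 14, 13, 13, 13, 13, 13, 13, 13]

/-- the trajectory of length 32 -/
def traj (i : ℕ) : Config 2 :=
  (![xs.getD i 0, ys.getD i 13],
    ![xs.getD i 0 - xs.getD (i - 1) 0, ys.getD i 13 - ys.getD (i - 1) 13])

theorem traj_feasible : IsFeasible cities 32 traj := by
  refine ⟨?_, ?_, ?_, ![0, 8, 15, 16, 24, 32], ?_, ?_⟩
  · intro i hi
    have h : ∀ i : Fin 32, (traj (i.val + 1)).2 = (traj (i.val + 1)).1 - (traj i.val).1 ∧
        ∀ k : Fin 2, (traj (i.val + 1)).2 k - (traj i.val).2 k = -1 ∨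
          (traj (i.val + 1)).2 k - (traj i.val).2 k = 0 ∨
          (traj (i.val + 1)).2 k - (traj i.val).2 k = 1 := by decide
    exact h ⟨i, hi⟩
  · decide
  · decide
  · intro a b hab
    revert hab
    revert a b
    decide
  · have h : ∀ j : Fin 6, (![0, 8, 15, 16, 24, 32] : Fin 6 → ℕ) j ≤ 32 ∧
        (traj ((![0, 8, 15, 16, 24, 32] : Fin 6 → ℕ) j)).1 = cities j := by decide
    intro j
    refine ⟨(h j).1, ?_⟩
    unfold Visits
    rw [(h j).2]
    exact right_mem_segment ℝ _ _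

section OneDim

variable {T : ℕ} {x v : ℕ → ℤ}

/-- a leg between two times with zero velocity -/
theorem leg (hx : ∀ i < T, x (i + 1) = x i + v (i + 1))
    (hv : ∀ i < T, -1 ≤ v (i + 1) - v i ∧ v (i + 1) - v i ≤ 1) (a b : ℕ) (hab : a < b) (hb : b ≤ T)
    (ha0 : v a = 0) (hb0 : v b = 0) (hd : 16 ≤ x b - x a) : a + 8 ≤ b ∧ (b = a + 8 →
      x (a + 1) = x a + 1 ∧ x (a + 2) = x a + 3 ∧ x (a + 3) = x a + 6 ∧ x (a + 4) = x a + 10 ∧
      x (a + 5) = x a + 13 ∧ x (a + 6) = x a + 15 ∧ x (a + 7) = x a + 16 ∧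
      x (a + 8) = x a + 16) := by
  obtain ⟨n, rfl⟩ : ∃ n, b = a + n := ⟨b - a, by omega⟩
  have s : ∀ j < n, x (a + j + 1) = x (a + j) + v (a + j + 1) ∧
      -1 ≤ v (a + j + 1) - v (a + j) ∧ v (a + j + 1) - v (a + j) ≤ 1 := fun j hj =>
    ⟨hx (a + j) (by omega), hv (a + j) (by omega)⟩
  constructor
  · by_contra hcon
    have hn : n < 8 := by omega
    have hn0 : n ≠ 0 := by omega
    interval_cases n
    · exact hn0 rfl
    · have s0 := s 0 (by norm_num)
      simp only [Nat.add_zero] at s0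
      omega
    · have s0 := s 0 (by norm_num)
      have s1 := s 1 (by norm_num)
      simp only [add_assoc, Nat.reduceAdd, Nat.add_zero] at s0 s1
      omega
    · have s0 := s 0 (by norm_num)
      have s1 := s 1 (by norm_num)
      have s2 := s 2 (by norm_num)
      simp only [add_assoc, Nat.reduceAdd, Nat.add_zero] at s0 s1 s2
      omega
    · have s0 := s 0 (by norm_num)
      have s1 := s 1 (by norm_num)
      have s2 := s 2 (by norm_num)
      have s3 := s 3 (by norm_num)
      simp only [add_assoc, Nat.reduceAdd, Nat.add_zero] at s0 s1 s2 s3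
      omega
    · have s0 := s 0 (by norm_num)
      have s1 := s 1 (by norm_num)
      have s2 := s 2 (by norm_num)
      have s3 := s 3 (by norm_num)
      have s4 := s 4 (by norm_num)
      simp only [add_assoc, Nat.reduceAdd, Nat.add_zero] at s0 s1 s2 s3 s4
      omega
    · have s0 := s 0 (by norm_num)
      have s1 := s 1 (by norm_num)
      have s2 := s 2 (by norm_num)
      have s3 := s 3 (by norm_num)
      have s4 := s 4 (by norm_num)
      have s5 := s 5 (by norm_num)
      simp only [add_assoc, Nat.reduceAdd, Nat.add_zero] at s0 s1 s2 s3 s4 s5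
      omega
    · have s0 := s 0 (by norm_num)
      have s1 := s 1 (by norm_num)
      have s2 := s 2 (by norm_num)
      have s3 := s 3 (by norm_num)
      have s4 := s 4 (by norm_num)
      have s5 := s 5 (by norm_num)
      have s6 := s 6 (by norm_num)
      simp only [add_assoc, Nat.reduceAdd, Nat.add_zero] at s0 s1 s2 s3 s4 s5 s6
      omega
  · intro h8
    obtain rfl : n = 8 := by omega
    have s0 := s 0 (by norm_num)
    have s1 := s 1 (by norm_num)
    have s2 := s 2 (by norm_num)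
    have s3 := s 3 (by norm_num)
    have s4 := s 4 (by norm_num)
    have s5 := s 5 (by norm_num)
    have s6 := s 6 (by norm_num)
    have s7 := s 7 (by norm_num)
    simp only [add_assoc, Nat.reduceAdd, Nat.add_zero] at s0 s1 s2 s3 s4 s5 s6 s7
    omega

/-- a time with zero velocity above the level `16` -/
theorem zero (hx : ∀ i < T, x (i + 1) = x i + v (i + 1))
    (hv : ∀ i < T, -1 ≤ v (i + 1) - v i ∧ v (i + 1) - v i ≤ 1) (hv0 : v 0 = 0) (l : ℤ) (t u : ℕ)
    (htu : t < u) (hu : u ≤ T) (ht : l ≤ x t) (hxu : x u < l) :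
    ∃ z < u, v z = 0 ∧ ∀ i, (z ≤ i ∧ i ≤ t ∨ t ≤ i ∧ i ≤ z) → l ≤ x i := by
  classical
  -- the first time after `t` below the level
  have hex : ∃ w, t < w ∧ x w < l := ⟨u, htu, hxu⟩
  let w := Nat.find hex
  have hw := Nat.find_spec hex
  have hwu : w ≤ u := Nat.find_min' hex ⟨htu, hxu⟩
  have hwmin : ∀ i, t ≤ i → i < w → l ≤ x i := by
    intro i hti hiw
    rcases hti.eq_or_lt with rfl | h
    · exact ht
    · by_contra hcon
      exact Nat.find_min hex hiw ⟨h, not_le.mp hcon⟩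
  have hw1 : t < w := hw.1
  have hw2 : x w < l := hw.2
  -- the last time before with nonnegative velocity
  have hex2 : ∃ j, j < w ∧ 0 ≤ v (w - 1 - j) := ⟨w - 1, by omega, by
    have : w - 1 - (w - 1) = 0 := by omega
    rw [this, hv0]⟩
  let j := Nat.find hex2
  have hj := Nat.find_spec hex2
  have hj1 : j < w := hj.1
  have hj2 : 0 ≤ v (w - 1 - j) := hj.2
  have hneg : ∀ i, w - 1 - j < i → i ≤ w → v i < 0 := by
    intro i h1 h2
    rcases h2.eq_or_lt with rfl | h2
    · have h3 := hx (w - 1) (by omega)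
      have h4 : w - 1 + 1 = w := by omega
      rw [h4] at h3
      have h5 := hwmin (w - 1) (by omega) (by omega)
      omega
    · by_contra hcon
      have h3 : w - 1 - (w - 1 - i) = i := by omega
      have h4 := Nat.find_min' hex2 (m := w - 1 - i) ⟨by omega, by rw [h3]; omega⟩
      have h5 : j ≤ w - 1 - i := h4
      omega
  refine ⟨w - 1 - j, by omega, ?_, ?_⟩
  · have h1 := hneg (w - 1 - j + 1) (by omega) (by omega)
    have h2 := hv (w - 1 - j) (by omega)
    omega
  · intro i hi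
    rcases hi with ⟨h1, h2⟩ | ⟨h1, h2⟩
    · -- backwards from `t`
      have key : ∀ k, w - 1 - j + k ≤ t → l ≤ x (t - k) := by
        intro k
        induction k with
        | zero => intro _; simpa using ht
        | succ k ih =>
          intro hk
          have h3 := ih (by omega)
          have h4 := hx (t - (k + 1)) (by omega)
          have h5 : t - (k + 1) + 1 = t - k := by omega
          rw [h5] at h4
          have h6 := hneg (t - k) (by omega) (by omega)
          omega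
      have h3 := key (t - i) (by omega)
      have h4 : t - (t - i) = i := by omega
      rwa [h4] at h3
    · exact hwmin i h1 (by omega)

/-- The first coordinate of a trajectory that goes `0, 16, 0, 16, 0` in at most `32` steps. -/
theorem rigid (hx : ∀ i < T, x (i + 1) = x i + v (i + 1))
    (hv : ∀ i < T, -1 ≤ v (i + 1) - v i ∧ v (i + 1) - v i ≤ 1) (hv0 : v 0 = 0) (hx0 : x 0 = 0)
    (hvT : v T = 0) (hxT : x T = 0) (hT : T ≤ 32) (t1 t2 t3 : ℕ) (h12 : t1 < t2) (h23 : t2 < t3)
    (h3 : t3 < T) (e1 : 16 ≤ x t1) (e2 : x t2 ≤ 0) (e3 : 16 ≤ x t3) :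
    T = 32 ∧ ∀ i ≤ 32, x i = xs.getD i 0 := by
  obtain ⟨z1, hz1, hz1v, hz1x⟩ := zero hx hv hv0 16 t1 t2 h12 (by omega) e1 (by omega)
  obtain ⟨z2, hz2, hz2v, hz2x⟩ := zero (x := fun i => -x i) (v := fun i => -v i) (T := T)
    (fun i hi => by show -x (i + 1) = -x i + -v (i + 1); rw [hx i hi]; ring)
    (fun i hi => by
      have := hv i hi
      show -1 ≤ -v (i + 1) - -v i ∧ -v (i + 1) - -v i ≤ 1
      constructor <;> omega)
    (by show -v 0 = 0; rw [hv0]; rfl) 0 t2 t3 h23 (by omega) (by show 0 ≤ -x t2; omega)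
    (by show -x t3 < 0; omega)
  obtain ⟨z3, hz3, hz3v, hz3x⟩ := zero hx hv hv0 16 t3 T h3 le_rfl e3 (by omega)
  have hz2v' : v z2 = 0 := by
    have : -v z2 = 0 := hz2v
    omega
  have hz2x' : ∀ i, (z2 ≤ i ∧ i ≤ t2 ∨ t2 ≤ i ∧ i ≤ z2) → x i ≤ 0 := fun i hi => by
    have : 0 ≤ -x i := hz2x i hi
    omega
  have x1 : 16 ≤ x z1 := hz1x z1 (by omega)
  have x2 : x z2 ≤ 0 := hz2x' z2 (by omega)
  have x3 : 16 ≤ x z3 := hz3x z3 (by omega)
  have o0 : 0 < z1 := by
    rcases Nat.eq_zero_or_pos z1 with h | h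
    · rw [h] at x1; omega
    · exact h
  have o1 : z1 < z2 := by
    by_contra hcon
    have := hz2x' z1 (by omega)
    omega
  have o2 : z2 < z3 := by
    by_contra hcon
    have := hz3x z2 (by omega)
    omega
  have l1 := leg hx hv 0 z1 o0 (by omega) hv0 hz1v (by omega)
  have l3 := leg hx hv z2 z3 o2 (by omega) hz2v' hz3v (by omega)
  have hx' : ∀ i < T, (fun i => -x i) (i + 1) = (fun i => -x i) i + (fun i => -v i) (i + 1) :=
    fun i hi => by show -x (i + 1) = -x i + -v (i + 1); rw [hx i hi]; ring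
  have hv' : ∀ i < T, -1 ≤ (fun i => -v i) (i + 1) - (fun i => -v i) i ∧
      (fun i => -v i) (i + 1) - (fun i => -v i) i ≤ 1 := fun i hi => by
    have := hv i hi
    show -1 ≤ -v (i + 1) - -v i ∧ -v (i + 1) - -v i ≤ 1
    constructor <;> omega
  have l2 := leg (x := fun i => -x i) (v := fun i => -v i) hx' hv' z1 z2 o1 (by omega) (by show -v z1 = 0; omega) (by show -v z2 = 0; omega)
    (by show 16 ≤ -x z2 - -x z1; omega)
  have l4 := leg (x := fun i => -x i) (v := fun i => -v i) hx' hv' z3 T hz3 le_rfl (by show -v z3 = 0; omega) (by show -v T = 0; omega)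
    (by show 16 ≤ -x T - -x z3; omega)
  obtain rfl : z1 = 8 := by omega
  obtain rfl : z2 = 16 := by omega
  obtain rfl : z3 = 24 := by omega
  obtain rfl : T = 32 := by omega
  have l1' := l1.2 rfl
  have l2' := l2.2 rfl
  have l3' := l3.2 rfl
  have l4' := l4.2 rfl
  simp only [Nat.reduceAdd] at l1' l2' l3' l4'
  refine ⟨rfl, fun i hi => ?_⟩
  interval_cases i <;> simp [xs] <;> omega

end OneDim

theorem segment_coord {d : ℕ} {c : Config d} {x : Fin d → ℤ} (h : Visits c x) (k : Fin d) :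
    (c.1 k - c.2 k ≤ x k ∧ x k ≤ c.1 k) ∨ (c.1 k ≤ x k ∧ x k ≤ c.1 k - c.2 k) := by
  obtain ⟨a, b, ha, hb, hab, h⟩ := h
  have h1 := congrFun h k
  simp only [toReal, Pi.add_apply, Pi.smul_apply, smul_eq_mul, Pi.sub_apply, Int.cast_sub] at h1
  have h2 : (x k : ℝ) = c.1 k - a * c.2 k := by
    rw [← h1]
    have : b = 1 - a := by linarith
    rw [this]; ring
  have ha1 : a ≤ 1 := by linarith
  rcases le_total 0 (c.2 k) with h3 | h3
  · left
    have h3' : (0 : ℝ) ≤ c.2 k := by exact_mod_cast h3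
    constructor
    · have : ((c.1 k - c.2 k : ℤ) : ℝ) ≤ x k := by
        push_cast
        rw [h2]
        nlinarith
      exact_mod_cast this
    · have : (x k : ℝ) ≤ c.1 k := by
        rw [h2]
        nlinarith
      exact_mod_cast this
  · right
    have h3' : (c.2 k : ℝ) ≤ 0 := by exact_mod_cast h3
    constructor
    · have : (c.1 k : ℝ) ≤ x k := by
        rw [h2]
        nlinarith
      exact_mod_cast this
    · have : (x k : ℝ) ≤ ((c.1 k - c.2 k : ℤ) : ℝ) := by
        push_cast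
        rw [h2]
        nlinarith
      exact_mod_cast this

/-- if the first coordinate of the city is that of the end point only, the city is the end point -/
theorem visits_end {c : Config 2} {x : Fin 2 → ℤ} (h : Visits c x) (h0 : c.2 0 ≠ 0)
    (h1 : x 0 = c.1 0) : x 1 = c.1 1 := by
  obtain ⟨a, b, ha, hb, hab, h⟩ := h
  have e0 := congrFun h 0
  have e1 := congrFun h 1
  simp only [toReal, Pi.add_apply, Pi.smul_apply, smul_eq_mul, Pi.sub_apply, Int.cast_sub] at e0 e1
  have hb' : b = 1 - a := by linarith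
  rw [h1, hb'] at e0
  have h2 : a * (c.2 0 : ℝ) = 0 := by linarith
  have h3 : (c.2 0 : ℝ) ≠ 0 := by exact_mod_cast h0
  have h4 : a = 0 := by
    rcases mul_eq_zero.mp h2 with h | h
    · exact h
    · exact absurd h h3
  rw [hb', h4] at e1
  have : (x 1 : ℝ) = c.1 1 := by linarith
  exact_mod_cast this

theorem visits_start {c : Config 2} {x : Fin 2 → ℤ} (h : Visits c x) (h0 : c.2 0 ≠ 0)
    (h1 : x 0 = c.1 0 - c.2 0) : x 1 = c.1 1 - c.2 1 := by
  obtain ⟨a, b, ha, hb, hab, h⟩ := h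
  have e0 := congrFun h 0
  have e1 := congrFun h 1
  simp only [toReal, Pi.add_apply, Pi.smul_apply, smul_eq_mul, Pi.sub_apply, Int.cast_sub] at e0 e1
  have hb' : b = 1 - a := by linarith
  rw [h1, hb'] at e0
  push_cast at e0
  have h2 : (1 - a) * (c.2 0 : ℝ) = 0 := by linarith
  have h3 : (c.2 0 : ℝ) ≠ 0 := by exact_mod_cast h0
  have h4 : a = 1 := by
    rcases mul_eq_zero.mp h2 with h | h
    · linarith
    · exact absurd h h3
  rw [hb', h4] at e1
  have : (x 1 : ℝ) = ((c.1 1 - c.2 1 : ℤ) : ℝ) := by push_cast; linarith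
  exact_mod_cast this

/-- there is no step of size `16` that leaves the wrong side -/
theorem big_step {T : ℕ} {x v : ℕ → ℤ} (hx : ∀ i < T, x (i + 1) = x i + v (i + 1))
    (hv : ∀ i < T, -1 ≤ v (i + 1) - v i ∧ v (i + 1) - v i ≤ 1) (hv0 : v 0 = 0) (hx0 : x 0 = 0)
    (hvT : v T = 0) (hT : T ≤ 32) (i : ℕ) (hi : i < T) (h : 16 ≤ v (i + 1)) : 0 < x i := by
  have h1 : ∀ j ≤ T, v j ≤ j := by
    intro j
    induction j with
    | zero => intro _; simp [hv0]
    | succ j ih =>
      intro hj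
      have := ih (by omega)
      have := hv j (by omega)
      push_cast
      omega
  have h2 : ∀ j ≤ T, v (T - j) ≤ j := by
    intro j
    induction j with
    | zero => intro _; simp [hvT]
    | succ j ih =>
      intro hj
      have e1 := ih (by omega)
      have e2 := hv (T - (j + 1)) (by omega)
      have e3 : T - (j + 1) + 1 = T - j := by omega
      rw [e3] at e2
      push_cast
      omega
  have h3 := h1 (i + 1) (by omega)
  have h4 := h2 (T - (i + 1)) (by omega)
  have h5 : T - (T - (i + 1)) = i + 1 := by omega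
  rw [h5] at h4
  have h6 : i = 15 := by omega
  subst h6
  have h7 : ∀ d j : ℕ, j + d = 15 → (j : ℤ) ≤ v j := by
    intro d
    induction d with
    | zero =>
      intro j hj
      have hj' : j = 15 := by omega
      subst hj'
      have := hv 15 hi
      push_cast
      omega
    | succ d ih =>
      intro j hj
      have e1 := ih (j + 1) (by omega)
      have e2 := hv j (by omega)
      push_cast at e1
      omega
  have h8 : ∀ j : ℕ, j ≤ 15 → (j : ℤ) ≤ x j := by
    intro j
    induction j with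
    | zero => intro _; simp [hx0]
    | succ j ih =>
      intro hj
      have e1 := ih (by omega)
      have e2 := hx j (by omega)
      have e3 := h7 (15 - (j + 1)) (j + 1) (by omega)
      push_cast at e3 ⊢
      omega
  have := h8 15 le_rfl
  omega

theorem seg_table : ∀ i : Fin 32,
    ((xs.getD i.val 0 ≤ 16 ∧ 16 ≤ xs.getD (i.val + 1) 0 ∨
      xs.getD (i.val + 1) 0 ≤ 16 ∧ 16 ≤ xs.getD i.val 0) → 6 ≤ i.val ∧ i.val ≤ 24) ∧
    ((xs.getD i.val 0 ≤ 0 ∧ 0 ≤ xs.getD (i.val + 1) 0 ∨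
      xs.getD (i.val + 1) 0 ≤ 0 ∧ 0 ≤ xs.getD i.val 0) →
      i.val = 0 ∨ i.val = 14 ∨ i.val = 15 ∨ i.val = 16 ∨ i.val = 30 ∨ i.val = 31) := by
  decide

theorem fast {l : ℕ} {c : ℕ → Config 2} (h : IsFeasible cities l c) (hl : l ≤ 32) :
    l = 32 ∧ 5 ≤ |(c 16).2 1| := by
  obtain ⟨htraj, hc0, hcl, idx, hmono, hidx⟩ := h
  have hstep : ∀ k : Fin 2, ∀ i < l, (c (i + 1)).1 k = (c i).1 k + (c (i + 1)).2 k := by
    intro k i hi
    have := congrFun (htraj i hi).1 k
    rw [Pi.sub_apply] at this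
    omega
  have hvel : ∀ i < l, -1 ≤ (c (i + 1)).2 0 - (c i).2 0 ∧ (c (i + 1)).2 0 - (c i).2 0 ≤ 1 := by
    intro i hi
    have := (htraj i hi).2 0
    simp only [Set.mem_insert_iff, Set.mem_singleton_iff] at this
    omega
  have v0 : (c 0).2 = 0 := by rw [hc0]
  have v00 : (c 0).2 0 = 0 := by rw [v0]; rfl
  have x0 : (c 0).1 0 = 0 := by rw [hc0]; rfl
  have vl : (c l).2 0 = 0 := by rw [hcl]; rfl
  have xl : (c l).1 0 = 0 := by rw [hcl]; rfl
  -- the segments
  have hseg : ∀ (j : Fin 6) (a : ℤ), cities j 0 = a → a ≠ 0 → ∃ t, idx j = t + 1 ∧ t < l ∧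
      ((c t).1 0 ≤ a ∧ a ≤ (c (t + 1)).1 0 ∨ (c (t + 1)).1 0 ≤ a ∧ a ≤ (c t).1 0) := by
    intro j a ha ha0
    have h1 := segment_coord (hidx j).2 0
    rw [ha] at h1
    have h2 := (hidx j).1
    rcases Nat.eq_zero_or_pos (idx j) with h3 | h3
    · rw [h3, v00, x0] at h1
      omega
    · obtain ⟨t, ht⟩ : ∃ t, idx j = t + 1 := ⟨idx j - 1, by omega⟩
      refine ⟨t, ht, by omega, ?_⟩
      rw [ht] at h1
      have := hstep 0 t (by omega)
      omega
  obtain ⟨t1, ht1, ht1l, hs1⟩ := hseg 1 16 rfl (by norm_num)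
  obtain ⟨t3, ht3, ht3l, hs3⟩ := hseg 4 16 rfl (by norm_num)
  have m12 : idx 1 ≤ idx 2 := hmono (by decide)
  have m23 : idx 2 ≤ idx 3 := hmono (by decide)
  have m34 : idx 3 ≤ idx 4 := hmono (by decide)
  have hseg0 : ∀ (j : Fin 6), cities j 0 = 0 → 0 < idx j → ∃ t, idx j = t + 1 ∧ t < l ∧
      ((c t).1 0 ≤ 0 ∧ 0 ≤ (c (t + 1)).1 0 ∨ (c (t + 1)).1 0 ≤ 0 ∧ 0 ≤ (c t).1 0) := by
    intro j ha h3
    have h1 := segment_coord (hidx j).2 0
    rw [ha] at h1
    have h2 := (hidx j).1
    obtain ⟨t, ht⟩ : ∃ t, idx j = t + 1 := ⟨idx j - 1, by omega⟩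
    refine ⟨t, ht, by omega, ?_⟩
    rw [ht] at h1
    have := hstep 0 t (by omega)
    omega
  obtain ⟨tA, htA, htAl, hsA⟩ := hseg0 2 rfl (by omega)
  obtain ⟨tB, htB, htBl, hsB⟩ := hseg0 3 rfl (by omega)
  -- points in time on the correct sides
  obtain ⟨s1, hs1', es1⟩ : ∃ s, (s = t1 ∨ s = t1 + 1) ∧ 16 ≤ (c s).1 0 := by
    rcases hs1 with h | h
    · exact ⟨t1 + 1, Or.inr rfl, h.2⟩
    · exact ⟨t1, Or.inl rfl, h.2⟩
  obtain ⟨s3, hs3', es3⟩ : ∃ s, (s = t3 ∨ s = t3 + 1) ∧ 16 ≤ (c s).1 0 := by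
    rcases hs3 with h | h
    · exact ⟨t3 + 1, Or.inr rfl, h.2⟩
    · exact ⟨t3, Or.inl rfl, h.2⟩
  obtain ⟨s2, hs2', es2⟩ : ∃ s, (s = tA ∨ s = tA + 1) ∧ (c s).1 0 ≤ 0 := by
    rcases hsA with h | h
    · exact ⟨tA, Or.inl rfl, h.1⟩
    · exact ⟨tA + 1, Or.inr rfl, h.1⟩
  have hx' : ∀ i < l, (fun i => -(c i).1 0) (i + 1) = (fun i => -(c i).1 0) i +
      (fun i => -(c i).2 0) (i + 1) := fun i hi => by
    show -(c (i + 1)).1 0 = -(c i).1 0 + -(c (i + 1)).2 0
    have := hstep 0 i hi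
    omega
  have hv' : ∀ i < l, -1 ≤ (fun i => -(c i).2 0) (i + 1) - (fun i => -(c i).2 0) i ∧
      (fun i => -(c i).2 0) (i + 1) - (fun i => -(c i).2 0) i ≤ 1 := fun i hi => by
    have := hvel i hi
    show -1 ≤ -(c (i + 1)).2 0 - -(c i).2 0 ∧ -(c (i + 1)).2 0 - -(c i).2 0 ≤ 1
    constructor <;> omega
  have o1 : s1 < s2 := by
    by_contra hcon
    have hne : s1 ≠ s2 := by
      rintro rfl
      omega
    have e1 : s2 = t1 := by omega
    have e2 : s1 = t1 + 1 := by omega
    rw [e1] at es2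
    rw [e2] at es1
    have h1 := hstep 0 t1 ht1l
    have h2 := big_step (x := fun i => (c i).1 0) (v := fun i => (c i).2 0) (hstep 0) hvel v00 x0
      vl hl t1 ht1l (by show 16 ≤ (c (t1 + 1)).2 0; omega)
    have h3 : 0 < (c t1).1 0 := h2
    omega
  have o2 : s2 < s3 := by
    by_contra hcon
    have hne : s2 ≠ s3 := by
      rintro rfl
      omega
    have e1 : s3 = tA := by omega
    have e2 : s2 = tA + 1 := by omega
    rw [e1] at es3
    rw [e2] at es2
    have h1 := hstep 0 tA htAl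
    have h2 := big_step (x := fun i => -(c i).1 0) (v := fun i => -(c i).2 0) hx' hv'
      (by show -(c 0).2 0 = 0; omega) (by show -(c 0).1 0 = 0; omega)
      (by show -(c l).2 0 = 0; omega) hl tA htAl (by show 16 ≤ -(c (tA + 1)).2 0; omega)
    have h3 : 0 < -(c tA).1 0 := h2
    omega
  have o3 : s3 < l := by
    rcases Nat.lt_or_ge s3 l with h | h
    · exact h
    · have e1 : s3 = l := by omega
      rw [e1] at es3
      omega
  obtain ⟨hl32, hX⟩ := rigid (x := fun i => (c i).1 0) (v := fun i => (c i).2 0) (hstep 0) hvel v00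
    x0 vl xl hl s1 s2 s3 o1 o2 o3 es1 es2 es3
  subst hl32
  refine ⟨rfl, ?_⟩
  have hX' : ∀ i ≤ 32, (c i).1 0 = xs.getD i 0 := hX
  have b1 : 6 ≤ t1 := by
    rw [hX' t1 (by omega), hX' (t1 + 1) (by omega)] at hs1
    exact ((seg_table ⟨t1, ht1l⟩).1 hs1).1
  have b3 : t3 ≤ 24 := by
    rw [hX' t3 (by omega), hX' (t3 + 1) (by omega)] at hs3
    exact ((seg_table ⟨t3, ht3l⟩).1 hs3).2
  have bA : tA = 14 ∨ tA = 15 ∨ tA = 16 := by
    rw [hX' tA (by omega), hX' (tA + 1) (by omega)] at hsA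
    have := (seg_table ⟨tA, htAl⟩).2 hsA
    simp only at this
    omega
  have bB : tB = 14 ∨ tB = 15 ∨ tB = 16 := by
    rw [hX' tB (by omega), hX' (tB + 1) (by omega)] at hsB
    have := (seg_table ⟨tB, htBl⟩).2 hsB
    simp only at this
    omega
  have x14 : (c 14).1 0 = 1 := hX' 14 (by norm_num)
  have x15 : (c 15).1 0 = 0 := hX' 15 (by norm_num)
  have x16 : (c 16).1 0 = 0 := hX' 16 (by norm_num)
  have x17 : (c 17).1 0 = 1 := hX' 17 (by norm_num)
  have s15 := hstep 0 14 (by norm_num)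
  have s17 := hstep 0 16 (by norm_num)
  have y16 := hstep 1 15 (by norm_num)
  have y17 := hstep 1 16 (by norm_num)
  simp only [Nat.reduceAdd] at s15 s17 y16 y17
  have key : ∀ (j : Fin 6) (t : ℕ), idx j = t + 1 → (t = 14 ∨ t = 15 ∨ t = 16) → cities j 0 = 0 →
      ((c 15).1 1 ≤ cities j 1 ∧ cities j 1 ≤ (c 16).1 1 ∨
        (c 16).1 1 ≤ cities j 1 ∧ cities j 1 ≤ (c 15).1 1) ∨
        cities j 1 = (c 15).1 1 ∨ cities j 1 = (c 16).1 1 := by
    intro j t hj ht hc
    have hvis := (hidx j).2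
    rw [hj] at hvis
    rcases ht with rfl | rfl | rfl
    · right; left
      exact visits_end hvis (by show (c 15).2 0 ≠ 0; omega)
        (by show cities j 0 = (c 15).1 0; omega)
    · left
      have h1 := segment_coord hvis 1
      simp only [Nat.reduceAdd] at h1
      omega
    · right; right
      have h1 := visits_start hvis (by show (c 17).2 0 ≠ 0; omega)
        (by show cities j 0 = (c 17).1 0 - (c 17).2 0; omega)
      simp only [Nat.reduceAdd] at h1
      omega
  have kA := key 2 tA htA bA rfl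
  have kB := key 3 tB htB bB rfl
  have cA : cities 2 1 = 7 := rfl
  have cB : cities 3 1 = 12 := rfl
  rw [cA] at kA
  rw [cB] at kB
  rcases abs_cases ((c 16).2 1) with h | h <;> omega

theorem sideLength_cities : sideLength (n := 5) cities = 16 := by
  refine le_antisymm (Finset.sup_le fun q _ => ?_) ?_
  · have h : ∀ (a b : Fin 6) (k : Fin 2), (cities a k - cities b k).natAbs ≤ 16 := by decide
    exact h q.1 q.2.1 q.2.2
  · have h := Finset.le_sup (f := fun q : Fin 6 × Fin 6 × Fin 2 =>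
      (cities q.1 q.2.2 - cities q.2.1 q.2.2).natAbs) (Finset.mem_univ (1, 0, 0))
    exact h

/-- There are finitely many cities in the plane such that optimal trajectories exist and every optimal
trajectory has, at some step and in some dimension, speed strictly greater than `√L`. -/
theorem result : ∃ (n : ℕ) (x : Fin (n + 1) → Fin 2 → ℤ), (∃ ℓ c, IsOptimal x ℓ c) ∧
    ∀ (ℓ : ℕ) (c : ℕ → Config 2), IsOptimal x ℓ c →
      ∃ i ≤ ℓ, ∃ k, Real.sqrt (sideLength x) < |((c i).2 k : ℝ)| := by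
  refine ⟨5, cities, ⟨32, traj, traj_feasible, fun l c h => ?_⟩, fun l c h => ?_⟩
  · by_contra hcon
    have := (fast h (by omega)).1
    omega
  · have hl := h.2 32 traj traj_feasible
    obtain ⟨rfl, h5⟩ := fast h.1 hl
    refine ⟨16, by norm_num, 1, ?_⟩
    rw [sideLength_cities]
    have h1 : Real.sqrt ((16 : ℕ) : ℝ) = 4 := by
      rw [show ((16 : ℕ) : ℝ) = 4 ^ 2 by norm_num]
      exact Real.sqrt_sq (by norm_num)
    rw [h1]
    have h6 : (5 : ℝ) ≤ |((c 16).2 1 : ℝ)| := by exact_mod_cast h5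
    linarith

end Pool.Agent.Results.MP_98930f_lc.FastOptimal
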